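import Pool.Agent.TH424.Fl.K4Fin
import Pool.Agent.TH424.Fl.K4Tur

/-!
# Quadruples with three edges in `K_4^3`-free 3-graphs

Let `H` be a `K_4^3`-free 3-graph on `n` vertices and `q` the number of the four-element vertex sets
that contain exactly three edges. Then `108 q ≤ n^4 + 18 n |H|` and `216 n |H| + 243 q ≤ 26 n^4`.
Consequently `q ≤ (2/81) n^4`, and `|H| ≤ (5/54) n^3 + (9 / (8 n)) ((2/81) n^4 - q)`: Turán's bound
`(5/54) n^3` holds up to a multiple of the number of quadruples with three edges that are missing
from `(2/81) n^4`. Turán's 3-graph shows that all constants are best possible.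

Outline: two sum of squares certificates of order six, found by a semidefinite programming solver
and made exact; the inequalities for the 3-graphs on six vertices are checked by the kernel.
-/

set_option autoImplicit false
open Finset
open scoped Classical

namespace Pool.Agent.Results.MP_f1799f_co.AlmostCompleteQuadruples

/-- The 3-graph `H` has no four vertices spanning all four triples. -/
def K43Free {n : ℕ} (H : Finset (Finset (Fin n))) : Prop :=
  ∀ S : Finset (Fin n), S.card = 4 → ∃ s ⊆ S, s.card = 3 ∧ s ∉ H

/-- The number of four-element vertex sets containing exactly three members of `H`. -/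
def quads3 {n : ℕ} (H : Finset (Finset (Fin n))) : ℕ :=
  (((univ : Finset (Fin n)).powersetCard 4).filter fun S =>
    (H.filter fun s => s ⊆ S).card = 3).card

open Pool.Agent.TH424.Fl.K4F Pool.Agent.W629.Q4 Pool.Agent.H122R2.K5

theorem quads3_eq {n : ℕ} (H : Finset (Finset (Fin n))) : quads3 H = N4 H 3 := by
  unfold quads3 N4 inside
  congr!

/-- The inequalities between the number of edges and the number of quadruples with three edges of a
`K_4^3`-free 3-graph, and Turán's 3-graph, which shows that they are best possible. -/
theorem result :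
    (∀ (n : ℕ) (H : Finset (Finset (Fin n))), (∀ s ∈ H, s.card = 3) → K43Free H →
      108 * quads3 H ≤ n ^ 4 + 18 * n * H.card ∧
      216 * n * H.card + 243 * quads3 H ≤ 26 * n ^ 4 ∧
      81 * quads3 H ≤ 2 * n ^ 4) ∧
    (∀ m : ℕ, ∃ H : Finset (Finset (Fin (3 * m))), (∀ s ∈ H, s.card = 3) ∧ K43Free H ∧
      m ^ 3 + 3 * (m.choose 2 * m) ≤ H.card ∧
      3 * (m.choose 2 * m ^ 2) + 3 * (m.choose 3 * m) ≤ quads3 H) := by
  constructor
  · intro n H h3 hK
    have hA := boundA h3 hK
    have hB := boundB h3 hK
    rw [quads3_eq H]
    refine ⟨hB, hA, ?_⟩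
    nlinarith [hA, hB]
  · intro m
    refine ⟨tur (3 * m), tur_card _, tur_free _, tur_edges m, ?_⟩
    rw [quads3_eq]
    exact tur_quads m

end Pool.Agent.Results.MP_f1799f_co.AlmostCompleteQuadruples
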