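import Pool.Agent.TH512.FA.BFin
import Pool.Agent.W38.TC.Lower

/-!
# Turán's `(3,4)`-conjecture for 3-graphs without six vertices spanning exactly eleven edges

Let `H` be a `K_4^3`-free 3-graph on `n` vertices. Six vertices of Turán's construction never span
exactly eleven edges. It is proved here that `54 n³ |H| ≤ 5 n⁶ + 27 n⁵ + 1296 N`, where `N` is the
number of six-vertex sets which span exactly eleven edges. So `54 |H| ≤ 5 n³ + 27 n²` if no six
vertices span exactly eleven edges, and the maximum density of these 3-graphs is exactly `5/9`.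
(Razborov's theorem of this kind excludes four vertices with exactly one edge.)
-/

set_option autoImplicit false
set_option maxRecDepth 100000
open Finset
open scoped Classical

namespace Pool.Agent.Results.MP_f1799f_co.NoElevenEdges

/-- The 3-graph `H` has no four vertices spanning all four triples. -/
def K43Free {n : ℕ} (H : Finset (Finset (Fin n))) : Prop :=
  ∀ S : Finset (Fin n), S.card = 4 → ∃ s ⊆ S, s.card = 3 ∧ s ∉ H

/-- The number of sets of six vertices which contain exactly eleven edges of `H`. -/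
noncomputable def eleven {n : ℕ} (H : Finset (Finset (Fin n))) : ℕ :=
  (((univ : Finset (Fin n)).powersetCard 6).filter fun S => (H.filter fun e => e ⊆ S).card = 11).card

theorem img {k n : ℕ} (f : Fin k → Fin n) (t : Finset (Fin k)) :
    @Finset.image _ _ (fun a b => Classical.propDecidable (a = b)) f t =
      @Finset.image _ _ (instDecidableEqFin n) f t := by
  ext v
  simp only [mem_image]

/-- the edges in the image of a map from six points -/
theorem edges_in {n : ℕ} {G : Finset (Finset (Fin n))} (h3 : ∀ e ∈ G, e.card = 3)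
    {f : Fin 6 → Fin n} (hf : Function.Injective f) (S : Finset (Fin n)) (hS : univ.image f = S) :
    (G.filter fun e => e ⊆ S).card =
      (((univ : Finset (Fin 6)).powersetCard 3).filter fun t => t.image f ∈ G).card := by
  have h1 : G.filter (fun e => e ⊆ S) =
      ((((univ : Finset (Fin 6)).powersetCard 3).filter fun t => t.image f ∈ G)).image
        (fun t => t.image f) := by
    ext e
    rw [mem_filter, mem_image]
    constructor
    · rintro ⟨he, hes⟩
      rw [← hS] at hes
      obtain ⟨t, -, ht⟩ := subset_image_iff.mp (show e ⊆ univ.image f from hes)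
      refine ⟨t, ?_, ht⟩
      rw [mem_filter, mem_powersetCard]
      refine ⟨⟨subset_univ _, ?_⟩, by rw [ht]; exact he⟩
      rw [← card_image_of_injective t hf, ht]
      exact h3 e he
    · rintro ⟨t, ht, rfl⟩
      rw [mem_filter] at ht
      refine ⟨ht.2, ?_⟩
      rw [← hS]
      exact image_subset_image (subset_univ t)
  rw [h1, card_image_of_injective _ (image_injective hf)]

theorem ind_eleven {n : ℕ} {H : Finset (Finset (Fin n))} (h3 : ∀ e ∈ H, e.card = 3)
    {F : Finset (Finset (Fin 6))} (hF3 : ∀ t ∈ F, t.card = 3) (hF : F.card = 11)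
    {S : Finset (Fin n)} (h : Pool.Agent.H37R3.Cop.Induces F H S) :
    (H.filter fun e => e ⊆ S).card = 11 := by
  unfold Pool.Agent.H37R3.Cop.Induces at h
  simp only [img] at h
  obtain ⟨f, hf, hS, hfe⟩ := h
  rw [edges_in h3 hf S hS, ← hF]
  congr 1
  ext t
  rw [mem_filter, mem_powersetCard]
  constructor
  · rintro ⟨⟨-, ht⟩, h1⟩
    exact (hfe t ht).1 h1
  · intro ht
    exact ⟨⟨subset_univ _, hF3 t ht⟩, (hfe t (hF3 t ht)).2 ht⟩

theorem FS_three : ∀ F ∈ Pool.Agent.TH512.FA.B.FS, ∀ t ∈ F, t.card = 3 := by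
  intro F hF
  simp only [Pool.Agent.TH512.FA.B.FS, List.mem_cons, List.not_mem_nil, or_false] at hF
  rcases hF with rfl | rfl | rfl | rfl <;>
  · intro t ht
    simp only [mem_insert, mem_singleton] at ht
    rcases ht with rfl | rfl | rfl | rfl | rfl | rfl | rfl | rfl | rfl | rfl | rfl <;> rfl

theorem FS_card : ∀ F ∈ Pool.Agent.TH512.FA.B.FS, F.card = 11 := by
  intro F hF
  simp only [Pool.Agent.TH512.FA.B.FS, List.mem_cons, List.not_mem_nil, or_false] at hF
  rcases hF with rfl | rfl | rfl | rfl <;> rfl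

theorem copies_six {n : ℕ} (H : Finset (Finset (Fin n))) (h3 : ∀ e ∈ H, e.card = 3) :
    (((univ : Finset (Fin n)).powersetCard 6).filter fun S =>
      Pool.Agent.H37R3.CopL.IndL Pool.Agent.TH512.FA.B.FS H S).card ≤ eleven H := by
  unfold eleven
  refine card_le_card fun S hS => ?_
  rw [mem_filter] at hS ⊢
  obtain ⟨h6, F, hF, h⟩ := hS
  exact ⟨h6, ind_eleven h3 (FS_three F hF) (FS_card F hF) h⟩

theorem main (n : ℕ) (H : Finset (Finset (Fin n))) (h3 : ∀ e ∈ H, e.card = 3)
    (hK : K43Free H) :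
    54 * n ^ 3 * H.card ≤ 5 * n ^ 6 + 27 * n ^ 5 + 1296 * eleven H := by
  rcases Nat.eq_zero_or_pos n with rfl | hn
  · simp
  · have h := Pool.Agent.TH512.FA.B.main (V := Fin n) (H := H) h3
      (by
        intro S hS
        obtain ⟨s, hs, hs3, hsH⟩ := hK S hS
        exact ⟨s, hs, hs3, hsH⟩)
      (by rw [Fintype.card_fin]; exact hn)
    rw [Fintype.card_fin] at h
    have h1 := Nat.mul_le_mul_left 1296 (copies_six H h3)
    linarith

theorem of_free (n : ℕ) (H : Finset (Finset (Fin n))) (h3 : ∀ e ∈ H, e.card = 3)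
    (hK : K43Free H)
    (hX : ∀ S : Finset (Fin n), S.card = 6 → (H.filter fun e => e ⊆ S).card ≠ 11) :
    54 * H.card ≤ 5 * n ^ 3 + 27 * n ^ 2 := by
  rcases Nat.eq_zero_or_pos n with rfl | hn
  · have : H = ∅ := by
      rw [eq_empty_iff_forall_notMem]
      intro e he
      have h1 := h3 e he
      have h2 := card_le_univ e
      rw [Fintype.card_fin, h1] at h2
      omega
    simp [this]
  · have h := main n H h3 hK
    have h0 : eleven H = 0 := by
      unfold eleven
      rw [card_eq_zero, filter_eq_empty_iff]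
      intro S hS
      exact hX S (mem_powersetCard.mp hS).2
    rw [h0] at h
    have hn3 : 0 < n ^ 3 := by positivity
    refine Nat.le_of_mul_le_mul_left ?_ hn3
    calc n ^ 3 * (54 * H.card) = 54 * n ^ 3 * H.card := by ring
      _ ≤ 5 * n ^ 6 + 27 * n ^ 5 + 1296 * 0 := h
      _ = n ^ 3 * (5 * n ^ 3 + 27 * n ^ 2) := by ring

open Pool.Agent.W38.TC.Lower

/-- the number of triples of six points, given by their parts, which are edges of Turán's 3-graph -/
def cnt (c : Fin 6 → Fin 3) : ℕ :=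
  ∑ i : Fin 6, ∑ j : Fin 6, ∑ k : Fin 6,
    if i < j ∧ j < k ∧ E (c i) (c j) (c k) = true then 1 else 0

def e3 (a b c : Fin 3) : ℕ := cond (E a b c) 1 0

theorem cnt_eq (c : Fin 6 → Fin 3) : cnt c =
    e3 (c 0) (c 1) (c 2) + e3 (c 0) (c 1) (c 3) + e3 (c 0) (c 1) (c 4) + e3 (c 0) (c 1) (c 5) +
    e3 (c 0) (c 2) (c 3) + e3 (c 0) (c 2) (c 4) + e3 (c 0) (c 2) (c 5) + e3 (c 0) (c 3) (c 4) +
    e3 (c 0) (c 3) (c 5) + e3 (c 0) (c 4) (c 5) + e3 (c 1) (c 2) (c 3) + e3 (c 1) (c 2) (c 4) +
    e3 (c 1) (c 2) (c 5) + e3 (c 1) (c 3) (c 4) + e3 (c 1) (c 3) (c 5) + e3 (c 1) (c 4) (c 5) +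
    e3 (c 2) (c 3) (c 4) + e3 (c 2) (c 3) (c 5) + e3 (c 2) (c 4) (c 5) + e3 (c 3) (c 4) (c 5) := by
  have key : ∀ i j k : Fin 6, (if i < j ∧ j < k ∧ E (c i) (c j) (c k) = true then 1 else 0) =
      (if i < j ∧ j < k then e3 (c i) (c j) (c k) else 0) := by
    intro i j k
    unfold e3
    by_cases h : i < j ∧ j < k
    · rw [if_pos h]
      cases hE : E (c i) (c j) (c k) <;> simp [h.1, h.2]
    · rw [if_neg h, if_neg (fun h' => h ⟨h'.1, h'.2.1⟩)]
  unfold cnt
  simp only [key, Fin.sum_univ_six]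
  simp (decide := true) only [if_true, if_false]
  ring

theorem ne_eleven : ∀ a b c d e f : Fin 3,
    e3 a b c + e3 a b d + e3 a b e + e3 a b f + e3 a c d + e3 a c e + e3 a c f + e3 a d e +
    e3 a d f + e3 a e f + e3 b c d + e3 b c e + e3 b c f + e3 b d e + e3 b d f + e3 b e f +
    e3 c d e + e3 c d f + e3 c e f + e3 d e f ≠ 11 := by decide +kernel

def T : Finset (Fin 6 × Fin 6 × Fin 6) := univ.filter fun x => x.1 < x.2.1 ∧ x.2.1 < x.2.2

theorem T_image : T.image (fun x => ({x.1, x.2.1, x.2.2} : Finset (Fin 6))) =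
    (univ : Finset (Fin 6)).powersetCard 3 := by decide +kernel

theorem T_inj : ∀ x ∈ T, ∀ y ∈ T, ({x.1, x.2.1, x.2.2} : Finset (Fin 6)) = {y.1, y.2.1, y.2.2} →
    x = y := by decide +kernel

theorem turan_eleven {n : ℕ} (S : Finset (Fin n)) (hS : S.card = 6) :
    ((Pool.Agent.W38.TC.Lower.H : Finset (Finset (Fin n))).filter fun e => e ⊆ S).card ≠ 11 := by
  obtain ⟨f, hf, hfS⟩ : ∃ f : Fin 6 → Fin n, Function.Injective f ∧ univ.image f = S := by
    refine ⟨S.orderEmbOfFin hS, (S.orderEmbOfFin hS).injective, ?_⟩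
    ext v
    simp only [mem_image, mem_univ, true_and]
    have := Finset.range_orderEmbOfFin S hS
    constructor
    · rintro ⟨i, rfl⟩; exact Finset.orderEmbOfFin_mem S hS i
    · intro hv
      have : v ∈ Set.range (S.orderEmbOfFin hS) := by rw [this]; exact hv
      exact this
  rw [edges_in (fun e he => H_card he) hf S hfS]
  have h1 : (((univ : Finset (Fin 6)).powersetCard 3).filter fun t => t.image f ∈
      (Pool.Agent.W38.TC.Lower.H : Finset (Finset (Fin n)))) =
      (T.filter fun x => E (p (f x.1)) (p (f x.2.1)) (p (f x.2.2)) = true).image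
        (fun x => ({x.1, x.2.1, x.2.2} : Finset (Fin 6))) := by
    rw [← T_image, filter_image]
    congr 1
    refine filter_congr fun x hx => ?_
    have hx' : x.1 < x.2.1 ∧ x.2.1 < x.2.2 := (mem_filter.mp hx).2
    have n1 : f x.1 ≠ f x.2.1 := fun h => hx'.1.ne (hf h)
    have n2 : f x.1 ≠ f x.2.2 := fun h => (hx'.1.trans hx'.2).ne (hf h)
    have n3 : f x.2.1 ≠ f x.2.2 := fun h => hx'.2.ne (hf h)
    rw [image_insert, image_insert, image_singleton, mem_H n1 n2 n3]
  rw [h1, card_image_of_injOn (fun x hx y hy hxy => T_inj x (mem_of_mem_filter x hx) y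
    (mem_of_mem_filter y hy) hxy)]
  have h2 : (T.filter fun x => E (p (f x.1)) (p (f x.2.1)) (p (f x.2.2)) = true).card =
      cnt (fun i => p (f i)) := by
    unfold cnt T
    rw [filter_filter, card_filter, Fintype.sum_prod_type]
    refine sum_congr rfl fun i _ => ?_
    rw [Fintype.sum_prod_type]
    refine sum_congr rfl fun j _ => sum_congr rfl fun k _ => ?_
    simp only [and_assoc]
  rw [h2, cnt_eq]
  exact ne_eleven _ _ _ _ _ _

/-- Turán's construction has no six vertices with exactly eleven edges. -/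
theorem sharp (n : ℕ) : ∃ H : Finset (Finset (Fin n)), (∀ e ∈ H, e.card = 3) ∧ K43Free H ∧
    (∀ S : Finset (Fin n), S.card = 6 → (H.filter fun e => e ⊆ S).card ≠ 11) ∧
    5 * n ^ 3 ≤ 54 * H.card + 108 * n ^ 2 := by
  refine ⟨Pool.Agent.W38.TC.Lower.H, fun e he => H_card he, fun S hS => H_free S hS,
    fun S hS => turan_eleven S hS, ?_⟩
  have h1 := H_large (n := n)
  have h5 : 5 * (n : ℝ) ^ 3 ≤
      54 * ((Pool.Agent.W38.TC.Lower.H : Finset (Finset (Fin n))).card : ℝ) + 108 * (n : ℝ) ^ 2 := by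
    nlinarith
  exact_mod_cast h5

/-- **Turán's `(3,4)`-conjecture without six vertices spanning eleven edges.** Let `H` be a
`K_4^3`-free 3-graph on `n` vertices, and let `N` be the number of sets of six vertices which span
exactly eleven edges. Then `54 n³ |H| ≤ 5 n⁶ + 27 n⁵ + 1296 N`. If no six vertices span exactly
eleven edges, then `54 |H| ≤ 5 n³ + 27 n²`; and for every `n` there is such a 3-graph (Turán's
construction) with `5 n³ ≤ 54 |H| + 108 n²`. -/
theorem result :
    (∀ (n : ℕ) (H : Finset (Finset (Fin n))), (∀ e ∈ H, e.card = 3) → K43Free H →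
      54 * n ^ 3 * H.card ≤ 5 * n ^ 6 + 27 * n ^ 5 + 1296 * eleven H) ∧
    (∀ (n : ℕ) (H : Finset (Finset (Fin n))), (∀ e ∈ H, e.card = 3) → K43Free H →
      (∀ S : Finset (Fin n), S.card = 6 → (H.filter fun e => e ⊆ S).card ≠ 11) →
      54 * H.card ≤ 5 * n ^ 3 + 27 * n ^ 2) ∧
    (∀ n : ℕ, ∃ H : Finset (Finset (Fin n)), (∀ e ∈ H, e.card = 3) ∧ K43Free H ∧
      (∀ S : Finset (Fin n), S.card = 6 → (H.filter fun e => e ⊆ S).card ≠ 11) ∧
      5 * n ^ 3 ≤ 54 * H.card + 108 * n ^ 2) :=
  ⟨main, of_free, sharp⟩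

end Pool.Agent.Results.MP_f1799f_co.NoElevenEdges
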