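import Pool.Agent.TH773.CM.Fin

/-!
# Turán's `(3,4)`-problem: five order-size pairs

Turán's conjecture says that a `K_4^3`-free 3-graph on `n` vertices has at most
`(5/9 + o(1)) C(n,3)` edges. Let `(k, m)` be one of the pairs `(5,4)`, `(6,6)`, `(6,7)`, `(7,17)`,
`(7,19)`. Here the conjecture is proved for `K_4^3`-free 3-graphs in which (almost) no `k` vertices
span exactly `m` edges, together with stability: if such a 3-graph has nearly `(5/9) C(n,3)` edges,
then it is close to Turán's construction `turan g` for some division `g` of the vertices into three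
parts. In Turán's construction no `k` vertices span exactly `m` edges. So `K_4^3`-free 3-graphs with
edge density more than `5/9` (if there are any) contain a positive proportion of sets of `k` vertices
with exactly `m` edges, for each of the five pairs.

Outline: the classes are not closed under the cloning of vertices. So a small 3-graph may have
density `o(1)` in the class: if every 3-graph which arises when a vertex is cloned contains `K_4^3`,
`k` vertices with `m` edges, or a 3-graph which is known to have density `o(1)`, then its density is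
`o(1)` by the Cauchy–Schwarz inequality. Chains of such steps (of up to 81 3-graphs with six to nine
vertices) lead to the two six-vertex 3-graphs whose number of induced copies bounds, together with
the number of missing edges, the distance to Turán's construction (by sum of squares certificates
for six-vertex structures).
-/

set_option autoImplicit false
set_option maxRecDepth 100000
set_option maxHeartbeats 4000000
open Finset
open scoped Classical

namespace Pool.Agent.Results.MP_f1799f_co.OrderSizePairs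
open Pool.Agent.TH773.Turan34

/-- Five pairs. -/
def pairs : List (ℕ × ℕ) := [(5, 4), (6, 6), (6, 7), (7, 17), (7, 19)]

/-- Let `(k, m)` be one of the five pairs. For every `ε > 0` there are `δ > 0` and `n0` such that
every `K_4^3`-free 3-graph `H` on `n ≥ n0` vertices, in which at most `δ nᵏ` sets of `k` vertices span
exactly `m` edges, has at most `(5/9 + ε) C(n,3)` edges, and
`|H ∆ turan g| ≤ 1161216000 ((5/54) n³ - |H|) + ε n³` for some division `g` of the vertices. In
Turán's construction there are no such sets. -/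
theorem result :
    (∀ p ∈ pairs, ∀ ε : ℝ, 0 < ε → ∃ δ : ℝ, 0 < δ ∧ ∃ n0 : ℕ, ∀ n, n0 ≤ n →
      ∀ H : Finset (Finset (Fin n)), (∀ e ∈ H, e.card = 3) → K43Free H →
      (spans H p.1 p.2 : ℝ) ≤ δ * (n : ℝ) ^ p.1 →
        (H.card : ℝ) ≤ (5 / 9 + ε) * (n.choose 3 : ℝ) ∧
        ∃ g : Fin n → Fin 3, ((symmDiff H (turan g)).card : ℝ) ≤
          1161216000 * (5 / 54 * (n : ℝ) ^ 3 - H.card) + ε * (n : ℝ) ^ 3) ∧
    (∀ (n : ℕ) (g : Fin n → Fin 3), K43Free (turan g) ∧ ∀ p ∈ pairs, spans (turan g) p.1 p.2 = 0) := by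
  have key : ∀ k m : ℕ, (k = 5 ∨ k = 6 ∨ k = 7) →
      (Pool.Agent.TH773.CM.Negl [] [(k, m)] (6, 120663) ∧
        Pool.Agent.TH773.CM.Negl [] [(k, m)] (6, 228027)) →
      ∀ ε : ℝ, 0 < ε → ∃ δ : ℝ, 0 < δ ∧ ∃ n0 : ℕ, ∀ n, n0 ≤ n →
      ∀ H : Finset (Finset (Fin n)), (∀ e ∈ H, e.card = 3) → K43Free H →
      (spans H k m : ℝ) ≤ δ * (n : ℝ) ^ k →
        (H.card : ℝ) ≤ (5 / 9 + ε) * (n.choose 3 : ℝ) ∧
        ∃ g : Fin n → Fin 3, ((symmDiff H (turan g)).card : ℝ) ≤
          1161216000 * (5 / 54 * (n : ℝ) ^ 3 - H.card) + ε * (n : ℝ) ^ 3 := by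
    intro k m hk hN ε hε
    obtain ⟨K, n0, h⟩ := Pool.Agent.TH773.CM.main_gen hN hε
    have hk0 : 0 < k ^ k := by
      rcases hk with rfl | rfl | rfl <;> norm_num
    have hk1 : (0 : ℝ) < ((k ^ k : ℕ) : ℝ) := by exact_mod_cast hk0
    refine ⟨1 / (((k ^ k : ℕ) : ℝ) * ((K : ℝ) + 1)), by positivity, n0, fun n hn H h3 hK hP => ?_⟩
    refine h n hn H h3 hK (fun a ha => absurd ha List.not_mem_nil) (fun a ha => ?_)
    rw [List.mem_singleton] at ha
    subst ha
    exact Pool.Agent.TH773.CL.nat_of_real rfl hk0 hP (Pool.Agent.TH773.CM.cqS_le hk h3 m)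
  refine ⟨?_, ?_⟩
  · intro p hp
    have hp' : p = (5, 4) ∨ p = (6, 6) ∨ p = (6, 7) ∨ p = (7, 17) ∨ p = (7, 19) := by
      simpa [pairs] using hp
    rcases hp' with rfl | rfl | rfl | rfl | rfl
    · intro ε hε
      obtain ⟨K, n0, h⟩ := Pool.Agent.TH773.CM.main_gen (Pool.Agent.TH773.CM.five_negl 7) hε
      refine ⟨1 / (((3125 : ℕ) : ℝ) * ((K : ℝ) + 1)), by positivity, n0,
        fun n hn H h3 hK hP => ?_⟩
      refine h n hn H h3 hK (fun a ha => ?_) (fun q hq => absurd hq List.not_mem_nil)
      have ha' : a = (5, 54) ∨ a = (5, 184) := by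
        simpa [Pool.Agent.TH773.CM.fiveM] using ha
      rcases ha' with rfl | rfl
      · exact Pool.Agent.TH773.CL.nat_of_real rfl (by norm_num) hP
          (Pool.Agent.TH773.CM.cpS5_span h3 (by decide))
      · exact Pool.Agent.TH773.CL.nat_of_real rfl (by norm_num) hP
          (Pool.Agent.TH773.CM.cpS5_span h3 (by decide))
    · exact key 6 6 (by norm_num) ⟨Pool.Agent.TH773.CM.TP66_0, Pool.Agent.TH773.CM.TP66_1⟩
    · exact key 6 7 (by norm_num) ⟨Pool.Agent.TH773.CM.TP67_0, Pool.Agent.TH773.CM.TP67_1⟩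
    · exact key 7 17 (by norm_num) ⟨Pool.Agent.TH773.CM.TP717_0, Pool.Agent.TH773.CM.TP717_1⟩
    · exact key 7 19 (by norm_num) ⟨Pool.Agent.TH773.CM.TP719_0, Pool.Agent.TH773.CM.TP719_1⟩
  · intro n g
    refine ⟨Pool.Agent.TH773.ST.turan_free g, ?_⟩
    intro p hp
    have hp' : p = (5, 4) ∨ p = (6, 6) ∨ p = (6, 7) ∨ p = (7, 17) ∨ p = (7, 19) := by
      simpa [pairs] using hp
    rcases hp' with rfl | rfl | rfl | rfl | rfl
    · exact Pool.Agent.TH773.CM.spans_turan (by norm_num) Pool.Agent.TH773.CM.rs5 g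
    · exact Pool.Agent.TH773.CM.spans_turan (by norm_num)
        (fun c => (Pool.Agent.TH773.CM.rs6 c).1) g
    · exact Pool.Agent.TH773.CM.spans_turan (by norm_num)
        (fun c => (Pool.Agent.TH773.CM.rs6 c).2) g
    · exact Pool.Agent.TH773.CM.spans_turan (by norm_num)
        (fun c => (Pool.Agent.TH773.CM.rs7 c).1) g
    · exact Pool.Agent.TH773.CM.spans_turan (by norm_num)
        (fun c => (Pool.Agent.TH773.CM.rs7 c).2) g

end Pool.Agent.Results.MP_f1799f_co.OrderSizePairs
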