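import Pool.Agent.TH773.CM.Fin

/-!
# Turán's `(3,4)`-problem: density `5/9` and stability for lists of forbidden 3-graphs

Turán's conjecture says that a `K_4^3`-free 3-graph on `n` vertices has at most
`(5/9 + o(1)) C(n,3)` edges. Here this is proved, together with stability, for `K_4^3`-free
3-graphs with (almost) no induced copies of the members of one of twelve lists of two, three or
four 3-graphs on five vertices, for example of the 3-graph with two edges with two common vertices
and the 3-graph with three edges on four vertices. All these classes contain Turán's construction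
`turan g`.

Outline: for five lists `fam i` of six-vertex 3-graphs the distance to Turán's construction is
bounded by the number of edges which are missing and the number of induced copies of the members,
by sum of squares certificates; this inequality is the first part of the statement. The other
classes are not closed under the cloning of vertices. So a six-vertex 3-graph may have density
`o(1)` in the class: if every 3-graph which arises when a vertex is cloned contains a forbidden
structure or a 3-graph which is known to have density `o(1)`, then its density is `o(1)` by the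
Cauchy–Schwarz inequality. In each of the classes the two 3-graphs of `fam 2` are the last members
of such a chain.
-/

set_option autoImplicit false
set_option maxRecDepth 100000
set_option maxHeartbeats 4000000
open Finset
open scoped Classical

namespace Pool.Agent.Results.MP_f1799f_co.StabilityClasses
open Pool.Agent.TH773.Turan34

/-- The condition `P` (with the small parameter `δ`) forces Turán's bound and stability: for every
`ε > 0` there are `δ > 0` and `n0` such that every `K_4^3`-free 3-graph `H` on `n ≥ n0` vertices with
`P n δ H` has at most `(5/9 + ε) C(n,3)` edges, and satisfies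
`|H ∆ turan g| ≤ 1161216000 ((5/54) n³ - |H|) + ε n³` for some division `g` of the vertices. -/
def Forces (P : (n : ℕ) → ℝ → Finset (Finset (Fin n)) → Prop) : Prop :=
  ∀ ε : ℝ, 0 < ε → ∃ δ : ℝ, 0 < δ ∧ ∃ n0 : ℕ, ∀ n, n0 ≤ n → ∀ H : Finset (Finset (Fin n)),
    (∀ e ∈ H, e.card = 3) → K43Free H → P n δ H →
      (H.card : ℝ) ≤ (5 / 9 + ε) * (n.choose 3 : ℝ) ∧
      ∃ g : Fin n → Fin 3, ((symmDiff H (turan g)).card : ℝ) ≤
        1161216000 * (5 / 54 * (n : ℝ) ^ 3 - H.card) + ε * (n : ℝ) ^ 3

/-- Every `K_4^3`-free 3-graph `H` on `n` vertices has a division `g` of the vertices such that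
`n³ |H ∆ turan g| ≤ 1161216000 n³ ((5/54) n³ - |H|) + 83684966400 N`, where `N` is the number of sets
of vertices inducing a member of `fam i`. Turán's bound and stability hold if at most `δ n⁵` sets
induce a member of `lists j`. Turán's construction has no such sets. -/
theorem result :
    (∀ (i : Fin 5) (n : ℕ) (H : Finset (Finset (Fin n))), (∀ e ∈ H, e.card = 3) → K43Free H →
      ∃ g : Fin n → Fin 3, n ^ 3 * (symmDiff H (turan g)).card + 1161216000 * (n ^ 3 * H.card) ≤
        107520000 * n ^ 6 + 83684966400 * copies (fam i) H) ∧
    (∀ j : Fin 12, Forces fun n δ H => (copies (lists j) H : ℝ) ≤ δ * (n : ℝ) ^ 5) ∧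
    (∀ (n : ℕ) (g : Fin n → Fin 3), K43Free (turan g) ∧
      ∀ j : Fin 12, copies (lists j) (turan g) = 0) := by
  refine ⟨?_, ?_, ?_⟩
  · exact Pool.Agent.TH773.CL.stab_copies
  · intro j ε hε
    obtain ⟨K, n0, h⟩ := Pool.Agent.TH773.CM.main_gen (Pool.Agent.TH773.CM.five_negl j) hε
    refine ⟨1 / (((3125 : ℕ) : ℝ) * ((K : ℝ) + 1)), by positivity, n0, fun n hn H h3 hK hP => ?_⟩
    refine h n hn H h3 hK (fun a ha => ?_) (fun q hq => absurd hq List.not_mem_nil)
    obtain ⟨ha5, hF⟩ := Pool.Agent.TH773.CM.lists_mask j a ha
    obtain ⟨s, f⟩ := a
    change s = 5 at ha5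
    subst ha5
    exact Pool.Agent.TH773.CL.nat_of_real rfl (by norm_num) hP
      (Pool.Agent.TH773.CM.cpS5_le hF)
  · intro n g
    exact ⟨Pool.Agent.TH773.ST.turan_free g, fun j => Pool.Agent.TH773.CM.lists_turan j g⟩

end Pool.Agent.Results.MP_f1799f_co.StabilityClasses
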